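import Pool.Agent.P8H73.KV.Stm

/-!
# Project KV, package EEA
-/

set_option autoImplicit false

namespace Pool.Agent.P8H87.KV

open Finset Real Pool.Agent.H376R2.MR Pool.Agent.H376R2.TT Pool.Agent.Y844.BT Pool.Agent.P8H73.GM
open Pool.Agent.P8H73.KV

open Classical in
/-- the sum of `μ² / φ` -/
lemma GS_ge (k : ℕ) (R : ℝ) (hk : 1 ≤ k) (hR : 3 ≤ R) :
    (Nat.totient k : ℝ) / k * (Real.log R - 1) ≤ GS (SS k R R 1 1) := by
  have hS : SS k R R 1 1 = (Icc 1 ⌊R⌋₊).filter (fun m => Squarefree m ∧ Nat.Coprime m k) := by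
    unfold SS
    refine Finset.filter_congr fun m hm => ?_
    have h1 : (m : ℝ) ≤ R := (Nat.le_floor_iff (by linarith)).1 (Finset.mem_Icc.1 hm).2
    constructor
    · rintro ⟨a, b, -⟩
      exact ⟨a, b⟩
    · rintro ⟨a, b⟩
      exact ⟨a, b, Or.inl h1⟩
  have hG : GS (SS k R R 1 1) = selwq_G k ⌊R⌋₊ := by
    unfold GS selwq_G
    rw [hS, Finset.sum_filter]
    refine Finset.sum_congr rfl fun m _ => ?_
    unfold selwq_g sw_g
    by_cases h1 : Squarefree m <;> by_cases h2 : Nat.Coprime m k <;> simp [h1, h2]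
  have hfl : 1 ≤ ⌊R⌋₊ := Nat.le_floor (by norm_num; linarith)
  have h2 := selwq_G_ge k ⌊R⌋₊ hk hfl
  have hk0 : (0 : ℝ) < k := by exact_mod_cast hk
  have hφ : (0 : ℝ) < Nat.totient k := by exact_mod_cast Nat.totient_pos.2 hk
  have h3 : Real.log R - 1 ≤ Real.log ⌊R⌋₊ := by
    have h4 : R / 2 ≤ (⌊R⌋₊ : ℝ) := by
      have := Nat.lt_floor_add_one R
      linarith
    have h5 : Real.log (R / 2) ≤ Real.log (⌊R⌋₊ : ℝ) := Real.log_le_log (by linarith) h4
    rw [Real.log_div (by linarith) (by norm_num)] at h5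
    have := Real.log_two_lt_d9
    linarith
  rw [hG]
  calc (Nat.totient k : ℝ) / k * (Real.log R - 1)
      ≤ (Nat.totient k : ℝ) / k * ((k : ℝ) / Nat.totient k * selwq_G k ⌊R⌋₊) :=
        mul_le_mul_of_nonneg_left (h3.trans h2) (by positivity)
    _ = selwq_G k ⌊R⌋₊ := by
        field_simp

/-- the parameters -/
lemma par {C₁ lH ω s : ℝ} (hC₁ : 1 ≤ C₁) (hs : 1 ≤ s) (hω : 0 < ω)
    (h1 : ω * s ^ 2 ≤ 1 / (100 * C₁)) (h2 : 102 * Real.log lH ≤ ω * lH) (h3 : 3 ≤ lH) :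
    C₁ * s * (1 + 5 * ω * lH) ≤ (1 + ω) / 2 * lH := by
  have hl : 1 ≤ Real.log lH := by
    rw [Real.le_log_iff_exp_le (by linarith)]
    have := Real.exp_one_lt_d9
    linarith
  have h4 : C₁ * (ω * s ^ 2) ≤ 1 / 100 := by
    calc C₁ * (ω * s ^ 2) ≤ C₁ * (1 / (100 * C₁)) := mul_le_mul_of_nonneg_left h1 (by linarith)
      _ = 1 / 100 := by
        field_simp
  have h5 : s ≤ s ^ 2 := by nlinarith
  have h6 : C₁ * (ω * s) ≤ 1 / 100 :=
    (mul_le_mul_of_nonneg_left (mul_le_mul_of_nonneg_left h5 hω.le) (by linarith)).trans h4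
  have h7 : C₁ * s ≤ lH / 100 := by
    have h8 : 1 ≤ ω * lH := by linarith
    calc C₁ * s ≤ C₁ * s * (ω * lH) := le_mul_of_one_le_right (by positivity) h8
      _ = C₁ * (ω * s) * lH := by ring
      _ ≤ 1 / 100 * lH := mul_le_mul_of_nonneg_right h6 (by linarith)
      _ = lH / 100 := by ring
  have h9 : C₁ * s * (5 * ω * lH) ≤ lH / 20 := by
    calc C₁ * s * (5 * ω * lH) = 5 * (C₁ * (ω * s)) * lH := by ring
      _ ≤ 5 * (1 / 100) * lH := mul_le_mul_of_nonneg_right (by linarith) (by linarith)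
      _ = lH / 20 := by ring
  have h10 : 0 ≤ ω * lH := by positivity
  nlinarith

/-- the sum of the cubes -/
lemma cubes (G0 : ℝ) (S : Finset ℕ) (h1 : ∀ m ∈ S, 1 ≤ m) (B : ℝ) (hB : 0 ≤ B) :
    ∑ g ∈ S.filter (fun g : ℕ => (g : ℝ) ≤ G0), B / (g : ℝ) ^ 3 ≤ 2 * B := by
  obtain ⟨N, hN⟩ : ∃ N : ℕ, S ⊆ Icc 1 N := by
    refine ⟨S.sup id, fun m hm => Finset.mem_Icc.2 ⟨h1 m hm, Finset.le_sup (f := id) hm⟩⟩
  have h2 : ∑ g ∈ S.filter (fun g : ℕ => (g : ℝ) ≤ G0), B / (g : ℝ) ^ 3 ≤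
      ∑ g ∈ Icc 1 N, B / (g : ℝ) ^ 3 :=
    Finset.sum_le_sum_of_subset_of_nonneg ((Finset.filter_subset _ _).trans hN)
      fun _ _ _ => by positivity
  have h3 : ∀ N : ℕ, ∑ g ∈ Icc 1 N, B / (g : ℝ) ^ 3 ≤ B * (2 - 2 / ((N : ℝ) + 1)) := by
    intro N
    induction N with
    | zero => simp
    | succ n ih =>
      rw [Finset.sum_Icc_succ_top (by omega)]
      have h4 : B / ((n + 1 : ℕ) : ℝ) ^ 3 ≤ B * (2 / ((n : ℝ) + 1) - 2 / ((n : ℝ) + 1 + 1)) := by
        rw [div_eq_mul_inv]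
        refine mul_le_mul_of_nonneg_left ?_ hB
        push_cast
        have hn : (0 : ℝ) ≤ n := Nat.cast_nonneg n
        rw [div_sub_div _ _ (by positivity) (by positivity), inv_eq_one_div,
          div_le_div_iff₀ (by positivity) (by positivity)]
        nlinarith [mul_nonneg hn hn, mul_nonneg hn (mul_nonneg hn hn)]
      have h5 : B * (2 - 2 / (((n + 1 : ℕ) : ℝ) + 1)) = B * (2 - 2 / ((n : ℝ) + 1)) +
          B * (2 / ((n : ℝ) + 1) - 2 / ((n : ℝ) + 1 + 1)) := by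
        push_cast
        ring
      rw [h5]
      linarith
  refine h2.trans ((h3 N).trans ?_)
  have h6 : 0 ≤ 2 / ((N : ℝ) + 1) := by positivity
  nlinarith

/-- the final estimate -/
lemma fin_est {n : ℕ} (hn : n ≠ 0) {C₁ lH ω s R G0 Δ L : ℝ} (hC₁ : 1 ≤ C₁) (hs : 1 ≤ s) (hω : 0 < ω)
    (h1 : ω * s ^ 2 ≤ 1 / (100 * C₁)) (h2 : 102 * Real.log lH ≤ ω * lH) (hn2 : n + 1 ≤ 102)
    (h3 : 724 * C₁ ^ n ≤ lH) (hR : R = Real.exp ((1 + ω) / 2 * lH))
    (hG : G0 = Real.exp (5 * ω * lH)) (hΔ : Real.exp ((1 - ω) * lH) ≤ Δ)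
    (hL : L ≤ 2 * Real.exp lH) :
    2 * (R ^ 4 / Δ * ((C₁ * Real.log R) ^ n * (Real.exp (-(Real.log R / (6 * s ^ 2))) + 1 / G0))) +
      20 * (L / Δ + 4) * (R ^ 2 / G0) * (1 + Real.log G0) ≤ Real.exp ((1 - ω) * lH) := by
  have hC100 : 1 ≤ C₁ ^ n := one_le_pow₀ hC₁
  have hl : 724 ≤ lH := by linarith
  have hpar := par hC₁ hs hω h1 h2 (by linarith)
  have hlR : Real.log R = (1 + ω) / 2 * lH := by rw [hR, Real.log_exp]
  have hlG : Real.log G0 = 5 * ω * lH := by rw [hG, Real.log_exp]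
  have hs2 : (1 : ℝ) ≤ s ^ 2 := one_le_pow₀ hs
  have hωs : ω * s ^ 2 ≤ 1 / 100 := by
    refine h1.trans ?_
    rw [div_le_div_iff₀ (by positivity) (by norm_num)]
    linarith
  have hω1 : ω ≤ 1 / 100 := by nlinarith
  have hlRle : Real.log R ≤ lH := by
    rw [hlR]
    nlinarith
  have hlR0 : 0 ≤ Real.log R := by
    rw [hlR]
    positivity
  have hw : 0 < ω * lH := by positivity
  have hΔ0 : 0 < Δ := (Real.exp_pos _).trans_le hΔ
  -- the powers
  have e1 : R ^ 4 / Δ ≤ Real.exp ((1 + 3 * ω) * lH) := by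
    rw [div_le_iff₀ hΔ0]
    calc R ^ 4 = Real.exp ((1 + 3 * ω) * lH) * Real.exp ((1 - ω) * lH) := by
          rw [hR, ← Real.exp_nat_mul, ← Real.exp_add]
          congr 1
          push_cast
          ring
      _ ≤ _ := mul_le_mul_of_nonneg_left hΔ (Real.exp_pos _).le
  have e2 : Real.exp (-(Real.log R / (6 * s ^ 2))) + 1 / G0 ≤ 2 * Real.exp (-(5 * ω * lH)) := by
    have h4 : 1 / G0 = Real.exp (-(5 * ω * lH)) := by
      rw [hG, Real.exp_neg, one_div]
    have h5 : Real.exp (-(Real.log R / (6 * s ^ 2))) ≤ Real.exp (-(5 * ω * lH)) := by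
      apply Real.exp_le_exp.2
      rw [neg_le_neg_iff, hlR, le_div_iff₀ (by positivity)]
      have h6 : 5 * ω * lH * (6 * s ^ 2) = 30 * (ω * s ^ 2) * lH := by ring
      rw [h6]
      have h7 : 30 * (ω * s ^ 2) * lH ≤ 30 * (1 / 100) * lH :=
        mul_le_mul_of_nonneg_right (by linarith) (by linarith)
      nlinarith
    rw [h4]
    linarith
  have e3 : (C₁ * Real.log R) ^ n ≤ (C₁ * lH) ^ n :=
    pow_le_pow_left₀ (by positivity) (mul_le_mul_of_nonneg_left hlRle (by linarith)) _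
  have hCl : 1 ≤ C₁ * lH := by nlinarith
  have hE : lH ≤ (C₁ * lH) ^ n := by
    calc lH ≤ C₁ * lH := le_mul_of_one_le_left (by linarith) hC₁
      _ ≤ (C₁ * lH) ^ n := le_self_pow₀ hCl hn
  have a1 : R ^ 4 / Δ * ((C₁ * Real.log R) ^ n *
      (Real.exp (-(Real.log R / (6 * s ^ 2))) + 1 / G0)) ≤
      2 * (C₁ * lH) ^ n * Real.exp ((1 - 2 * ω) * lH) := by
    have hG0 : 0 < G0 := by rw [hG]; exact Real.exp_pos _
    calc R ^ 4 / Δ * ((C₁ * Real.log R) ^ n *
        (Real.exp (-(Real.log R / (6 * s ^ 2))) + 1 / G0))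
        ≤ Real.exp ((1 + 3 * ω) * lH) * ((C₁ * lH) ^ n * (2 * Real.exp (-(5 * ω * lH)))) :=
          mul_le_mul e1 (mul_le_mul e3 e2 (by positivity) (by positivity)) (by positivity)
            (by positivity)
      _ = 2 * (C₁ * lH) ^ n * (Real.exp ((1 + 3 * ω) * lH) * Real.exp (-(5 * ω * lH))) := by ring
      _ = _ := by
          rw [← Real.exp_add]
          congr 2
          ring
  have a2 : 20 * (L / Δ + 4) * (R ^ 2 / G0) * (1 + Real.log G0) ≤
      120 * (C₁ * lH) ^ n * Real.exp ((1 - 2 * ω) * lH) := by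
    have b1 : L / Δ + 4 ≤ 6 * Real.exp (ω * lH) := by
      have h4 : 1 ≤ Real.exp (ω * lH) := Real.one_le_exp hw.le
      have h5 : L / Δ ≤ 2 * Real.exp (ω * lH) := by
        rw [div_le_iff₀ hΔ0]
        calc L ≤ 2 * Real.exp lH := hL
          _ = 2 * Real.exp (ω * lH) * Real.exp ((1 - ω) * lH) := by
              rw [mul_assoc, ← Real.exp_add]
              congr 2
              ring
          _ ≤ _ := mul_le_mul_of_nonneg_left hΔ (by positivity)
      linarith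
    have b2 : R ^ 2 / G0 = Real.exp ((1 - 4 * ω) * lH) := by
      rw [hR, hG, ← Real.exp_nat_mul, ← Real.exp_sub]
      congr 1
      push_cast
      ring
    have b3 : 1 + Real.log G0 ≤ lH := by
      rw [hlG]
      have h4 : 1 * (1 + 5 * ω * lH) ≤ C₁ * s * (1 + 5 * ω * lH) :=
        mul_le_mul_of_nonneg_right (by nlinarith) (by positivity)
      have h5 : (1 + ω) / 2 * lH ≤ lH := by nlinarith
      linarith
    have b4 : 0 ≤ 1 + Real.log G0 := by
      rw [hlG]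
      positivity
    calc 20 * (L / Δ + 4) * (R ^ 2 / G0) * (1 + Real.log G0)
        ≤ 20 * (6 * Real.exp (ω * lH)) * (R ^ 2 / G0) * (1 + Real.log G0) := by
          refine mul_le_mul_of_nonneg_right (mul_le_mul_of_nonneg_right ?_ ?_) b4
          · linarith
          · rw [b2]
            positivity
      _ ≤ 20 * (6 * Real.exp (ω * lH)) * (R ^ 2 / G0) * (C₁ * lH) ^ n := by
          refine mul_le_mul_of_nonneg_left (b3.trans hE) ?_
          rw [b2]
          positivity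
      _ = 120 * (C₁ * lH) ^ n * (Real.exp (ω * lH) * Real.exp ((1 - 4 * ω) * lH)) := by
          rw [b2]
          ring
      _ ≤ _ := by
          refine mul_le_mul_of_nonneg_left ?_ (by positivity)
          rw [← Real.exp_add]
          apply Real.exp_le_exp.2
          nlinarith
  have a3 : 724 * (C₁ * lH) ^ n ≤ Real.exp (ω * lH) := by
    have hl0 : 0 < lH := by linarith
    calc 724 * (C₁ * lH) ^ n = 724 * C₁ ^ n * lH ^ n := by rw [mul_pow]; ring
      _ ≤ lH * lH ^ n := mul_le_mul_of_nonneg_right h3 (by positivity)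
      _ = lH ^ (n + 1) := by rw [pow_succ' lH n]
      _ ≤ lH ^ 102 := pow_le_pow_right₀ (by linarith) hn2
      _ = Real.exp (102 * Real.log lH) := by
          rw [show (102 : ℝ) * Real.log lH = ((102 : ℕ) : ℝ) * Real.log lH by norm_num,
            Real.exp_nat_mul, Real.exp_log hl0]
      _ ≤ _ := Real.exp_le_exp.2 h2
  calc 2 * (R ^ 4 / Δ * ((C₁ * Real.log R) ^ n *
      (Real.exp (-(Real.log R / (6 * s ^ 2))) + 1 / G0))) +
        20 * (L / Δ + 4) * (R ^ 2 / G0) * (1 + Real.log G0)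
      ≤ 2 * (2 * (C₁ * lH) ^ n * Real.exp ((1 - 2 * ω) * lH)) +
        120 * (C₁ * lH) ^ n * Real.exp ((1 - 2 * ω) * lH) :=
        add_le_add (mul_le_mul_of_nonneg_left a1 (by norm_num)) a2
    _ = 124 * (C₁ * lH) ^ n * Real.exp ((1 - 2 * ω) * lH) := by ring
    _ ≤ Real.exp (ω * lH) * Real.exp ((1 - 2 * ω) * lH) := by
        refine mul_le_mul_of_nonneg_right (le_trans ?_ a3) (Real.exp_pos _).le
        refine mul_le_mul_of_nonneg_right (by norm_num) (by positivity)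
    _ = _ := by
        rw [← Real.exp_add]
        congr 1
        ring


/-- **EEA** -/
theorem eea (hTRV : S_TRV) (hEA : S_EA) (hADM : S_ADM) : S_EEA := by
  obtain ⟨C₁, hC₁, hEA⟩ := hEA
  have hC100 : 1 ≤ C₁ ^ 100 := one_le_pow₀ hC₁
  refine ⟨1 / (100 * C₁), 102, Real.exp (724 * C₁ ^ 100), by positivity, ?_, by norm_num, ?_, ?_⟩
  · rw [div_le_div_iff₀ (by positivity) (by norm_num)]
    linarith
  · have := Real.add_one_le_exp (724 * C₁ ^ 100)
    linarith
  intro H Q ω k s l hH hk hkQ hl hs hω hωs hlog hq1 hq2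
  obtain ⟨lH, hlH⟩ : ∃ lH, lH = Real.log H := ⟨_, rfl⟩
  have hH0 : 0 < H := (Real.exp_pos _).trans_le hH
  have hlH1 : 724 * C₁ ^ 100 ≤ lH := by
    rw [hlH]
    exact (Real.le_log_iff_exp_le hH0).2 hH
  have hl724 : 724 ≤ lH := by linarith
  have hHe : H = Real.exp lH := by rw [hlH, Real.exp_log hH0]
  have hpow : ∀ a : ℝ, H ^ a = Real.exp (a * lH) := fun a => by
    rw [Real.rpow_def_of_pos hH0, ← hlH, mul_comm]
  rw [← hlH] at hlog hq1 hq2
  have hsr : (1 : ℝ) ≤ (s : ℝ) := by exact_mod_cast hs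
  have hpar := par hC₁ hsr hω hωs hlog (by linarith)
  unfold Concl
  rw [← hlH]
  obtain ⟨R, hR⟩ : ∃ R, R = H ^ ((1 + ω) / 2) := ⟨_, rfl⟩
  rw [← hR]
  have hRe : R = Real.exp ((1 + ω) / 2 * lH) := by rw [hR, hpow]
  have hlR : Real.log R = (1 + ω) / 2 * lH := by rw [hRe, Real.log_exp]
  have hR3 : 3 ≤ R := by
    rw [hRe]
    have h1 := Real.add_one_le_exp ((1 + ω) / 2 * lH)
    have h2 : 0 < ω * lH := by positivity
    nlinarith
  obtain ⟨G0, hG⟩ : ∃ G0, G0 = Real.exp (5 * ω * lH) := ⟨_, rfl⟩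
  have hlG : Real.log G0 = 5 * ω * lH := by rw [hG, Real.log_exp]
  have hG1 : 1 ≤ G0 := by
    rw [hG]
    exact Real.one_le_exp (by positivity)
  have hGR : G0 ≤ R := by
    rw [hG, hRe]
    apply Real.exp_le_exp.2
    have h4 : 1 * (1 + 5 * ω * lH) ≤ C₁ * s * (1 + 5 * ω * lH) :=
      mul_le_mul_of_nonneg_right (by nlinarith) (by positivity)
    linarith
  have hAdm : Adm (SS k R R 1 1) k R :=
    hADM k R R 1 1 hk (by linarith) le_rfl one_pos (by linarith)
  refine ⟨SS k R R 1 1, hAdm, ?_, ?_⟩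
  · refine le_trans ?_ (GS_ge k R hk hR3)
    rw [mul_assoc]
    refine mul_le_mul_of_nonneg_left ?_ (by positivity)
    have h1 : lH / 2 * (1 + ω / 2 - 102 / lH) = lH / 2 + ω * lH / 4 - 51 := by
      have : lH ≠ 0 := by linarith
      field_simp
      ring
    rw [h1, hlR]
    have h2 : 0 < ω * lH := by positivity
    linarith
  · intro c L Δ hΔ1 hΔ2 hL hcor
    rw [hpow] at hΔ1 ⊢
    have hΔ0 : (0 : ℝ) < Δ := (Real.exp_pos _).trans_le hΔ1
    have hΔ : 1 ≤ Δ := by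
      have : 0 < Δ := by exact_mod_cast hΔ0
      omega
    have hQ0 : 0 < Q := lt_of_lt_of_le (by exact_mod_cast hk) hkQ
    have hcor' : ∀ τ, Cor c L Δ τ → |(k : ℝ) * τ + l| ≤ 3 * Q * R ^ 2 ∧
        (Q * R ^ 2 ≤ 8 * G0 * |(k : ℝ) * τ + l| ∨ Q ≤ 16 * k) := by
      intro τ hτ
      obtain ⟨h1, h2⟩ := hcor τ hτ
      have hR2 : R ^ 2 = H * Real.exp (ω * lH) := by
        rw [hRe, hHe, ← Real.exp_nat_mul, ← Real.exp_add]
        congr 1
        push_cast
        ring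
      have h3 : 1 ≤ Real.exp (ω * lH) := Real.one_le_exp (by positivity)
      have h4 : Real.exp (ω * lH) ≤ G0 := by
        rw [hG]
        apply Real.exp_le_exp.2
        have : 0 < ω * lH := by positivity
        linarith
      refine ⟨?_, ?_⟩
      · rw [hR2]
        calc |(k : ℝ) * τ + l| ≤ 3 * (Q * H) := h1
          _ ≤ 3 * (Q * H) * Real.exp (ω * lH) := le_mul_of_one_le_right (by positivity) h3
          _ = _ := by ring
      · rcases h2 with h2 | h2
        · left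
          rw [hR2]
          calc Q * (H * Real.exp (ω * lH)) = (Q * H) * Real.exp (ω * lH) := by ring
            _ ≤ (8 * |(k : ℝ) * τ + l|) * G0 :=
                mul_le_mul h2 h4 (Real.exp_pos _).le (by positivity)
            _ = _ := by ring
        · exact Or.inr h2
    have hEg : ∀ g ∈ (SS k R R 1 1).filter (fun g : ℕ => (g : ℝ) ≤ G0),
        |Eg k l c L Δ (SS k R R 1 1) (R / G0) g| ≤
          (R ^ 4 / Δ * ((C₁ * Real.log R) ^ 100 *
            (Real.exp (-(Real.log R / (6 * (s : ℝ) ^ 2))) + 1 / G0))) / (g : ℝ) ^ 3 := by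
      intro g hg
      obtain ⟨hg1, hg2⟩ := Finset.mem_filter.1 hg
      obtain ⟨h1, h2, -⟩ := hAdm.2.1 g hg1
      have hg0 : 1 ≤ g := Nat.one_le_iff_ne_zero.2 h1.ne_zero
      have hg' : (g : ℝ) ≠ 0 := by
        have : (1 : ℝ) ≤ g := by exact_mod_cast hg0
        linarith
      have hfs : ∀ X : ℝ, R ^ 4 / ((g : ℝ) ^ 3 * Δ) * X = R ^ 4 / Δ * X / (g : ℝ) ^ 3 := by
        intro X
        field_simp
      exact (hEA s k l c L Δ g (SS k R R 1 1) R G0 Q hs hk hkQ hl hΔ hg0 hg2 h2 hR3 hG1 hAdm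
        (by rw [hlG, hlR]; exact hpar) (by rw [hlR]; exact hq1) (by rw [hlR]; exact hq2)
        hcor').trans (le_of_eq (hfs _))
    have hB : 0 ≤ R ^ 4 / Δ * ((C₁ * Real.log R) ^ 100 *
            (Real.exp (-(Real.log R / (6 * (s : ℝ) ^ 2))) + 1 / G0)) := by
      have h1 : 0 ≤ Real.log R := Real.log_nonneg (by linarith)
      have h2 : 0 ≤ C₁ := by linarith
      have h3 : 0 ≤ R ^ 4 / Δ := by positivity
      have h4 : 0 ≤ 1 / G0 := by positivity
      exact mul_nonneg h3 (mul_nonneg (pow_nonneg (mul_nonneg h2 h1) _)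
        (add_nonneg (Real.exp_pos _).le h4))
    have h1 := hTRV k l c L Δ (SS k R R 1 1) R G0 hk hΔ hG1 hGR hAdm
    have h2 := Finset.sum_le_sum hEg
    have h3 := cubes G0 (SS k R R 1 1) (fun m hm =>
      Nat.one_le_iff_ne_zero.2 (hAdm.2.1 m hm).1.ne_zero) _ hB
    have h4 := fin_est (n := 100) (by norm_num) (L := (L : ℝ)) hC₁ hsr hω hωs hlog (by norm_num) hlH1 hRe hG hΔ1
      (by rw [← hHe]; exact hL)
    linarith

end Pool.Agent.P8H87.KV
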